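import Pool.Agent.Lib.MP_144d21_co.X4.Iface

/-!
# MP_144d21_co, X4, module MD (helper19): if `x` and `y` are adjacent and all other vertices of a
2-connected graph have degree at least `d`, then `β ≥ (d - 1)!`.
-/

set_option autoImplicit false

namespace Pool.Agent.Xu.X4.H19

open Finset Pool.Agent.Xu Pool.Agent.Xu.X4

/-- the statement for all sets with at most `n` vertices -/
def MdN (n : ℕ) : Prop := ∀ (V : Type) [Fintype V] [DecidableEq V] (G : SimpleGraph V)
  (S : Finset V) (x y : V) (d : ℕ), S.card ≤ n → TwoConn G S → 3 ≤ S.card → x ∈ S → y ∈ S →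
  G.Adj x y → (∀ v ∈ S, v ≠ x → v ≠ y → d ≤ (nb G S v).card) →
  ((d - 1).factorial : ℤ) ≤ bet G S

theorem side (hBC : BetcutS) (hCC : CutconnS) (hBP : BposS) {n : ℕ} (IH : MdN n)
    {V : Type} [Fintype V] [DecidableEq V] {G : SimpleGraph V} {S S1 S2 : Finset V} {x y : V}
    {d : ℕ} (hn : S.card ≤ n + 1) (h2 : TwoConn G S)
    (hd : ∀ v ∈ S, v ≠ x → v ≠ y → d ≤ (nb G S v).card) {x' y' : V} (hxy' : x' ≠ y')
    (hU : S1 ∪ S2 = S) (hI : S1 ∩ S2 = {x', y'}) (hS : Sep G S1 S2) (h1 : S1 ≠ S)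
    (h1' : S2 ≠ S) (hx1 : x ∈ S1) (hy1 : y ∈ S1) :
    ((d - 1).factorial : ℤ) ≤ bet G S := by
  have hn1 : ¬ S1 ⊆ S2 := fun h => h1' (by rw [← hU]; exact (union_eq_right.2 h).symm)
  have hn2 : ¬ S2 ⊆ S1 := fun h => h1 (by rw [← hU]; exact (union_eq_left.2 h).symm)
  have hI' : S2 ∩ S1 = {x', y'} := by rw [inter_comm]; exact hI
  have hS' : Sep G S2 S1 := fun a ha ha' b hb hb' hab => hS b hb hb' a ha ha' hab.symm
  have h2U : TwoConn G (S1 ∪ S2) := by rw [hU]; exact h2
  have h2U' : TwoConn G (S2 ∪ S1) := by rw [union_comm, hU]; exact h2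
  have c1 : TwoConn (add G x' y') S1 := hCC V G S1 S2 x' y' h2U hI hxy' hS
  have c2 : TwoConn (add G x' y') S2 := hCC V G S2 S1 x' y' h2U' hI' hxy' hS'
  have hb : bet G S = bet (add G x' y') S1 * bet (add G x' y') S2 := by
    rw [← hU]; exact hBC V G S1 S2 x' y' h2U hI hxy' hS hn1 hn2
  have b1 : 0 < bet (add G x' y') S1 := hBP V _ S1 c1
  have b2 : 0 < bet (add G x' y') S2 := hBP V _ S2 c2
  have hx' : x' ∈ S1 ∩ S2 := by rw [hI]; simp
  have hy' : y' ∈ S1 ∩ S2 := by rw [hI]; simp
  rw [mem_inter] at hx' hy'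
  obtain ⟨b, hb2, hb1⟩ := not_subset.1 hn2
  have hc3 : 3 ≤ S2.card := by
    have hsub : ({x', y', b} : Finset V) ⊆ S2 := by
      intro z hz
      simp only [mem_insert, mem_singleton] at hz
      rcases hz with rfl | rfl | rfl
      · exact hx'.2
      · exact hy'.2
      · exact hb2
    have hcard : ({x', y', b} : Finset V).card = 3 := by
      rw [card_eq_three]
      exact ⟨x', y', b, hxy', fun h => hb1 (h ▸ hx'.1), fun h => hb1 (h ▸ hy'.1), rfl⟩
    rw [← hcard]
    exact card_le_card hsub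
  have hlt : S2.card < S.card := by
    apply card_lt_card
    rw [ssubset_iff_subset_ne]
    exact ⟨by rw [← hU]; exact subset_union_right, h1'⟩
  have hadj : (add G x' y').Adj x' y' := Or.inr ⟨hxy', Or.inl ⟨rfl, rfl⟩⟩
  have key : ((d - 1).factorial : ℤ) ≤ bet (add G x' y') S2 := by
    refine IH V _ S2 x' y' d (by omega) c2 hc3 hx'.2 hy'.2 hadj fun v hv hvx hvy => ?_
    have hv1 : v ∉ S1 := fun h => by
      have : v ∈ S1 ∩ S2 := mem_inter.2 ⟨h, hv⟩
      rw [hI] at this
      simp only [mem_insert, mem_singleton] at this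
      tauto
    have hvS : v ∈ S := by rw [← hU]; exact mem_union_right _ hv
    refine (hd v hvS (fun h => hv1 (h ▸ hx1)) (fun h => hv1 (h ▸ hy1))).trans
      (card_le_card fun u hu => ?_)
    rw [mem_nb] at hu ⊢
    refine ⟨?_, Or.inl hu.2⟩
    by_contra hu2
    have hu1 : u ∈ S1 := by
      have := hu.1
      rw [← hU, mem_union] at this
      tauto
    exact hS u hu1 hu2 v hv hv1 hu.2.symm
  rw [hb]
  nlinarith

theorem mdN (hDV : DvS) (hDICH : DichS) (hBC : BetcutS) (hCC : CutconnS) (hBP : BposS) :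
    ∀ n, MdN n := by
  intro n
  induction n with
  | zero =>
    intro V _ _ G S x y d hn h2 h3 hx hy hxy hd
    omega
  | succ n IH =>
    intro V _ _ G S x y d hn h2 h3 hx hy hxy hd
    have hpos : 0 < bet G S := hBP V G S h2
    have hne : x ≠ y := hxy.ne
    -- a further vertex
    obtain ⟨v, hv, hvx, hvy⟩ : ∃ v ∈ S, v ≠ x ∧ v ≠ y := by
      by_contra hcon
      push Not at hcon
      have hsub : S ⊆ {x, y} := fun z hz => by
        simp only [mem_insert, mem_singleton]
        by_cases h : z = x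
        · exact Or.inl h
        · exact Or.inr (hcon z hz h)
      have := card_le_card hsub
      have := card_le_two (a := x) (b := y)
      omega
    by_cases hd2 : d ≤ 2
    · have : (d - 1).factorial = 1 := by
        have : d - 1 = 0 ∨ d - 1 = 1 := by omega
        rcases this with h | h <;> rw [h] <;> rfl
      rw [this]
      push_cast
      omega
    by_cases h4 : S.card < 4
    · exfalso
      have h1 := hd v hv hvx hvy
      have h5 : (nb G S v).card ≤ (S.erase v).card := by
        apply card_le_card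
        intro u hu
        rw [mem_nb] at hu
        exact mem_erase.2 ⟨hu.2.ne', hu.1⟩
      rw [card_erase_of_mem hv] at h5
      omega
    rcases hDICH V G S (by omega) h2 with hT | ⟨x', y', S1, S2, hxy', hU, hI, hS, h1, h1'⟩
    · have hDv := hDV V G S v hT hv
      have he : (S.erase v).card = S.card - 1 := card_erase_of_mem hv
      have h2' : TwoConn G (S.erase v) := by
        refine ⟨by omega, h2.2.2 v hv, fun w hw => ?_⟩
        rw [mem_erase] at hw
        exact hT.2.2 v hv w hw.2 (Ne.symm hw.1)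
      have hIH := IH V G (S.erase v) x y (d - 1) (by omega) h2' (by omega)
        (mem_erase.2 ⟨Ne.symm hvx, hx⟩) (mem_erase.2 ⟨Ne.symm hvy, hy⟩) hxy (by
          intro w hw hwx hwy
          rw [mem_erase] at hw
          have h6 := hd w hw.2 hwx hwy
          have h7 : (nb G S w).erase v ⊆ nb G (S.erase v) w := by
            intro u hu
            rw [mem_erase, mem_nb] at hu
            rw [mem_nb, mem_erase]
            exact ⟨⟨hu.1, hu.2.1⟩, hu.2.2⟩
          have h8 := card_le_card h7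
          have h9 := pred_card_le_card_erase (s := nb G S w) (a := v)
          omega)
      have hm := hd v hv hvx hvy
      have hfac : ((d - 1).factorial : ℤ) = ((d : ℤ) - 1) * ((d - 1 - 1).factorial : ℤ) := by
        obtain ⟨e, rfl⟩ : ∃ e, d = e + 2 := ⟨d - 2, by omega⟩
        have : e + 2 - 1 = e + 1 := by omega
        rw [this, Nat.factorial_succ]
        push_cast
        ring
      have hm' : ((d : ℤ) - 1) ≤ ((nb G S v).card : ℤ) - 1 := by
        have : (d : ℤ) ≤ ((nb G S v).card : ℤ) := by exact_mod_cast hm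
        linarith
      have hf0 : (0 : ℤ) ≤ ((d - 1 - 1).factorial : ℤ) := by positivity
      have hd0 : (0 : ℤ) ≤ (d : ℤ) - 1 := by
        have : (2 : ℤ) < (d : ℤ) := by exact_mod_cast (not_le.1 hd2)
        linarith
      calc ((d - 1).factorial : ℤ) = ((d : ℤ) - 1) * ((d - 1 - 1).factorial : ℤ) := hfac
        _ ≤ (((nb G S v).card : ℤ) - 1) * bet G (S.erase v) :=
          mul_le_mul hm' hIH hf0 (hd0.trans hm')
        _ ≤ bet G S := hDv
    · have hx0 : x ∈ S1 ∪ S2 := by rw [hU]; exact hx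
      have hy0 : y ∈ S1 ∪ S2 := by rw [hU]; exact hy
      have hcase : (x ∈ S1 ∧ y ∈ S1) ∨ (x ∈ S2 ∧ y ∈ S2) := by
        by_contra hcon
        rw [mem_union] at hx0 hy0
        have : (x ∈ S1 ∧ x ∉ S2 ∧ y ∈ S2 ∧ y ∉ S1) ∨ (y ∈ S1 ∧ y ∉ S2 ∧ x ∈ S2 ∧ x ∉ S1) := by
          tauto
        rcases this with ⟨a1, a2, a3, a4⟩ | ⟨a1, a2, a3, a4⟩
        · exact hS x a1 a2 y a3 a4 hxy
        · exact hS y a1 a2 x a3 a4 hxy.symm
      rcases hcase with ⟨a, b⟩ | ⟨a, b⟩
      · exact side hBC hCC hBP IH hn h2 hd hxy' hU hI hS h1 h1' a b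
      · exact side hBC hCC hBP IH hn h2 hd hxy' (by rw [union_comm]; exact hU)
          (by rw [inter_comm]; exact hI)
          (fun p hp hp' q hq hq' hpq => hS q hq hq' p hp hp' hpq.symm) h1' h1 a b

/-- module MD -/
theorem md (hDV : DvS) (hDICH : DichS) (hBC : BetcutS) (hCC : CutconnS) (hBP : BposS) : MdS :=
  fun V _ _ G S x y d h2 h3 hx hy hxy hd =>
    mdN hDV hDICH hBC hCC hBP S.card V G S x y d le_rfl h2 h3 hx hy hxy hd

end Pool.Agent.Xu.X4.H19
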